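import Mathlib

set_option autoImplicit false

namespace Pool.Agent.H754Z.TA

open MeasureTheory

universe u v

/-- The Hilbert space `L²(G, μ)`. -/
abbrev LTwo {G : Type u} [MeasurableSpace G] (μ : Measure G) : Type u := Lp ℂ 2 μ

/-- Bounded operators on `L²(G, μ)`. -/
abbrev Op {G : Type u} [MeasurableSpace G] (μ : Measure G) : Type u := LTwo μ →L[ℂ] LTwo μ

section

variable {G : Type u} [Group G] [TopologicalSpace G] [IsTopologicalGroup G]
  [MeasurableSpace G] [BorelSpace G] (μ : Measure G) [μ.IsMulLeftInvariant]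

/-- The left regular representation: `(lam x ξ) y = ξ (x⁻¹ * y)`. -/
noncomputable def lam (x : G) : Op μ :=
  (Lp.compMeasurePreservingₗᵢ ℂ (fun y => x⁻¹ * y)
    (measurePreserving_mul_left μ x⁻¹)).toContinuousLinearMap

/-- The group von Neumann algebra `VN(G)`: the bicommutant of `lam(G)`. -/
def VN : Set (Op μ) := Set.centralizer (Set.centralizer (Set.range (lam μ)))

/-- The coefficient function `x ↦ ⟨lam x ξ, η⟩`; these functions form `A(G)`. -/
noncomputable def coef (ξ η : LTwo μ) : G → ℂ := fun x => inner ℂ η (lam μ x ξ)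

/-- `coef ξ η` and `coef ξ' η'` are at distance at most `ε` in the norm of the predual of
`VN(G)`. -/
def Near (ξ η ξ' η' : LTwo μ) (ε : ℝ) : Prop :=
  ∀ T ∈ VN μ, ‖T‖ ≤ 1 → ‖(inner ℂ η (T ξ) : ℂ) - inner ℂ η' (T ξ')‖ ≤ ε

/-- `A` is a subalgebra of `A(G)` that is closed, translation invariant, Tauberian, and whose
characters are exactly the evaluations at the points of `G`, all distinct. -/
structure Admissible (A : NonUnitalSubalgebra ℂ (G → ℂ)) : Prop where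
  sub : ∀ u ∈ A, ∃ ξ η, u = coef μ ξ η
  closed : ∀ ξ η, (∀ ε > 0, ∃ ξ' η', coef μ ξ' η' ∈ A ∧ Near μ ξ η ξ' η' ε) → coef μ ξ η ∈ A
  left : ∀ u ∈ A, ∀ g, (fun x => u (g * x)) ∈ A
  right : ∀ u ∈ A, ∀ g, (fun x => u (x * g)) ∈ A
  taub : ∀ ξ η, coef μ ξ η ∈ A → ∀ ε > 0, ∃ ξ' η', coef μ ξ' η' ∈ A ∧
    HasCompactSupport (coef μ ξ' η') ∧ Near μ ξ η ξ' η' ε
  char_eval : ∀ χ : A →ₙₐ[ℂ] ℂ, χ ≠ 0 → ∃ x, ∀ u : A, χ u = u.1 x
  eval_ne : ∀ x, ∃ u ∈ A, u x ≠ 0
  eval_inj : ∀ x y, (∀ u ∈ A, u x = u y) → x = y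

end

end Pool.Agent.H754Z.TA
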