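import Pool.Agent.H754Z.TA.Defs

set_option autoImplicit false

namespace Pool.Agent.H754Z.TA

open MeasureTheory

universe u v

/-- A length function on a group. -/
structure IsLen {G : Type u} [Group G] (N : G → ℝ) : Prop where
  nonneg : ∀ x, 0 ≤ N x
  one : N 1 = 0
  inv : ∀ x, N x⁻¹ = N x
  mul : ∀ x y, N (x * y) ≤ N x + N y

/-- A Gleason (semi)norm with constant `C`. -/
structure IsGN {G : Type u} [Group G] [TopologicalSpace G] (ν : G → ℝ) (C : ℝ) : Prop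
    extends IsLen ν where
  one_le : 1 ≤ C
  cont : Continuous ν
  cpt : IsCompact {x | ν x ≤ 1 / C}
  escape : ∀ (g : G) (n : ℕ), n * ν g ≤ 1 / C → n * ν g ≤ C * ν (g ^ n)
  comm : ∀ g h, ν g ≤ 1 / C → ν h ≤ 1 / C → ν (g⁻¹ * h⁻¹ * g * h) ≤ C * ν g * ν h

/-- A one-parameter subgroup modulo the kernel of `ν`, with Lipschitz constant `M`. -/
structure IsOP {G : Type u} [Group G] (ν : G → ℝ) (M : ℝ) (γ : ℝ → G) : Prop where
  hom : ∀ s t, ν ((γ (s + t))⁻¹ * (γ s * γ t)) = 0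
  lip : ∀ t, ν (γ t) ≤ M * |t|

/-- A representation by linear isometries. -/
structure IsURep {G : Type u} [Group G] {E : Type v} [NormedAddCommGroup E]
    [InnerProductSpace ℂ E] (T : G → E →L[ℂ] E) : Prop where
  one : ∀ ξ, T 1 ξ = ξ
  mul : ∀ x y ξ, T (x * y) ξ = T x (T y ξ)
  norm_eq : ∀ x ξ, ‖T x ξ‖ = ‖ξ‖

/-- A vector with bounded first and second differences. -/
def Sm {G : Type u} [Group G] {E : Type v} [NormedAddCommGroup E] [InnerProductSpace ℂ E]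
    (ν : G → ℝ) (T : G → E →L[ℂ] E) (ξ : E) : Prop :=
  ∃ M r : ℝ, 0 ≤ M ∧ 0 < r ∧ (∀ x, ν x ≤ r → ‖T x ξ - ξ‖ ≤ M * ν x) ∧
    ∀ x y, ν x ≤ r → ν y ≤ r → ‖T (x * y) ξ - T x ξ - T y ξ + ξ‖ ≤ M * ν x * ν y

/-- Boundary values of bounded holomorphic functions on the upper half plane. -/
def An {E : Type v} [NormedAddCommGroup E] [NormedSpace ℂ E] (c : ℝ → E) : Prop :=
  ∀ w : ℂ, w.im < 0 → ∫ t : ℝ, (((t : ℂ) - w) ^ 2)⁻¹ • c t = 0

/-- The Poisson integral at the point `i y`. -/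
noncomputable def Poi (y : ℝ) (u : ℝ → ℂ) : ℂ :=
  ∫ t : ℝ, ((y / (Real.pi * (t ^ 2 + y ^ 2)) : ℝ) : ℂ) * u t

/-- The derivative at `0` of the orbit of `ξ` along `γ`. -/
noncomputable def dv {G : Type u} {E : Type v} [NormedAddCommGroup E] [InnerProductSpace ℂ E]
    (T : G → E →L[ℂ] E) (γ : ℝ → G) (ξ : E) : E :=
  deriv (fun t : ℝ => T (γ t) ξ) 0

/-- The drift of `ξ` along `γ`. -/
noncomputable def ell {G : Type u} {E : Type v} [NormedAddCommGroup E] [InnerProductSpace ℂ E]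
    (T : G → E →L[ℂ] E) (γ : ℝ → G) (ξ : E) : ℝ :=
  (inner ℂ ξ (dv T γ ξ) : ℂ).im

/-- The properties of the algebra that the main argument uses. -/
structure CoreHyp {G : Type u} [Group G] [TopologicalSpace G] [MeasurableSpace G]
    (μ : Measure G) (A : NonUnitalSubalgebra ℂ (G → ℂ)) : Prop where
  cont : ∀ u ∈ A, Continuous u
  taub : ∀ u ∈ A, ∀ ε > 0, ∃ v ∈ A, HasCompactSupport v ∧ ∀ x, ‖u x - v x‖ ≤ ε
  left : ∀ u ∈ A, ∀ g, (fun x => u (g * x)) ∈ A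
  right : ∀ u ∈ A, ∀ g, (fun x => u (x * g)) ∈ A
  lconv : ∀ u ∈ A, ∀ h : G → ℂ, Continuous h → HasCompactSupport h →
    (fun x => ∫ w, h w * u (w⁻¹ * x) ∂μ) ∈ A
  rconv : ∀ u ∈ A, ∀ h : G → ℂ, Continuous h → HasCompactSupport h →
    (fun x => ∫ z, u (x * z) * h z ∂μ) ∈ A
  char_eval : ∀ χ : A →ₙₐ[ℂ] ℂ, χ ≠ 0 → ∃ x, ∀ u : A, χ u = u.1 x
  eval_ne : ∀ x, ∃ u ∈ A, u x ≠ 0
  eval_inj : ∀ x y, (∀ u ∈ A, u x = u y) → x = y

end Pool.Agent.H754Z.TA
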